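import Pool.Agent.H50En.Defs

/-!
# Package E0: double counting
-/

namespace Pool.Agent.H19En

open Real Finset Pool.Agent.H50En

variable {V : Type} [DecidableEq V]

theorem count {n s d : ℕ} (hn : 4 ≤ n) {K : Finset (Finset V)} (hK : Pure n K)
    (h3 : ∀ σ ∈ faces K (n - 1), 3 ≤ #(K.filter (σ ⊆ ·))) {e : Finset V} (he : #e = 2)
    (hs : #((faces K (n - 1)).filter (e ⊆ ·)) = s) (hd : #(K.filter (e ⊆ ·)) = d) :
    3 * s ≤ (n - 1).choose 2 * d := by
  have key : ∀ T ∈ K.filter (e ⊆ ·),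
      #((powersetCard (n - 1) T).filter (e ⊆ ·)) ≤ (n - 1).choose 2 := by
    intro T hT
    rw [mem_filter] at hT
    have hTn := hK T hT.1
    have h1 : #(powersetCard (n - 3) (T \ e)) = (n - 1).choose 2 := by
      rw [card_powersetCard, card_sdiff_of_subset hT.2, hTn, he]
      have : n + 1 - 2 = n - 1 := by omega
      rw [this]
      exact Nat.choose_symm_of_eq_add (by omega)
    rw [← h1]
    apply card_le_card_of_injOn (fun σ => σ \ e)
    · intro σ hσ
      rw [mem_coe, mem_filter, mem_powersetCard] at hσ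
      rw [mem_coe, mem_powersetCard]
      refine ⟨sdiff_subset_sdiff hσ.1.1 (Subset.refl e), ?_⟩
      rw [card_sdiff_of_subset hσ.2, hσ.1.2, he]
      omega
    · intro σ hσ τ hτ h
      rw [mem_coe, mem_filter] at hσ hτ
      simp only at h
      rw [← sdiff_union_of_subset hσ.2, h, sdiff_union_of_subset hτ.2]
  have h4 := sum_card_bipartiteAbove_eq_sum_card_bipartiteBelow
    (s := (faces K (n - 1)).filter (e ⊆ ·)) (t := K.filter (e ⊆ ·)) (fun σ T => σ ⊆ T)
  have h5 : 3 * s ≤ ∑ σ ∈ (faces K (n - 1)).filter (e ⊆ ·),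
      #((K.filter (e ⊆ ·)).bipartiteAbove (fun σ T => σ ⊆ T) σ) := by
    rw [← hs, mul_comm, ← smul_eq_mul]
    apply card_nsmul_le_sum
    intro σ hσ
    rw [mem_filter] at hσ
    refine (h3 σ hσ.1).trans (card_le_card ?_)
    intro T hT
    rw [mem_filter] at hT
    rw [mem_bipartiteAbove, mem_filter]
    exact ⟨⟨hT.1, hσ.2.trans hT.2⟩, hT.2⟩
  have h6 : ∑ T ∈ K.filter (e ⊆ ·),
      #(((faces K (n - 1)).filter (e ⊆ ·)).bipartiteBelow (fun σ T => σ ⊆ T) T) ≤
      (n - 1).choose 2 * d := by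
    rw [← hd, mul_comm, ← smul_eq_mul]
    apply sum_le_card_nsmul
    intro T hT
    refine le_trans (card_le_card ?_) (key T hT)
    intro σ hσ
    rw [mem_bipartiteBelow, mem_filter] at hσ
    rw [mem_filter, mem_powersetCard]
    obtain ⟨⟨h7, h8⟩, h9⟩ := hσ
    unfold faces at h7
    rw [mem_biUnion] at h7
    obtain ⟨T', -, h10⟩ := h7
    rw [mem_powersetCard] at h10
    exact ⟨⟨h9, h10.2⟩, h8⟩
  exact h5.trans (h4.le.trans h6)

end Pool.Agent.H19En
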